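import Pool.Agent.Lib.MP_fc15dd_lc.Main

namespace Pool.Agent.Results.MP_fc15dd_lc.Bounded

open Pool.Agent.Lib.MP_fc15dd_lc

/-- For each of the degrees (2,1) and (1,2), every recursively enumerable language over a finite
alphabet is generated by a generalized one-sided forbidding grammar of that degree with at most 13
nonterminals and at most 10 rules with nonempty forbidding context. -/
theorem result (m n : ℕ) (hmn : (m = 2 ∧ n = 1) ∨ (m = 1 ∧ n = 2))
    (T : Type) [Finite T] [Primcodable T] (L : Set (List T))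
    (hL : REPred (fun w : List T => w ∈ L)) :
    ∃ (N : Type) (_ : Fintype N) (G : Grammar N T),
      G.Degree m n ∧ Fintype.card N ≤ 13 ∧ G.numForb ≤ 10 ∧ G.lang = L := by
  rcases hmn with ⟨rfl, rfl⟩ | ⟨rfl, rfl⟩
  · obtain ⟨G, h1, h2, h3⟩ := exists_21 L hL
    exact ⟨NT, inferInstance, G, h1, card_NT.le, h2, h3⟩
  · obtain ⟨G, h1, h2, h3⟩ := exists_12 L hL
    exact ⟨NT, inferInstance, G, h1, card_NT.le, h2, h3⟩

end Pool.Agent.Results.MP_fc15dd_lc.Bounded
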